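import Mathlib

namespace Pool.Agent.H.MP_59868e_an
open Filter

def top (x : ℤ × ℤ) : Prop := 1 ≤ x.2 ∧ x.2 * x.2 ≤ x.1 ∧ x.1 < (x.2 + 1) * (x.2 + 1)
def C : Set (ℤ × ℤ) := {x | (x.2 = 0 ∧ 0 ≤ x.1) ∨ top x}
def Q : Set (ℤ × ℤ) := {x | (x.2 = 0 ∧ 1 ≤ x.1) ∨ top x}
def R : Set (ℤ × ℤ) := {x | (x.2 = 0 ∧ 0 ≤ x.1) ∨ (top x ∧ x.1 + 1 < (x.2 + 1) * (x.2 + 1))}
def D : Set (ℤ × ℤ) := {x | top x ∧ x.1 + 1 = (x.2 + 1) * (x.2 + 1)}

def Loc (S : Set (ℤ × ℤ)) : Prop :=
  ∀ s : ℤ × ℤ, ∀ᶠ k : ℤ in atTop, ((k * k + k, 0) + s ∈ S ↔ (k * k + k, k) + s ∈ S)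

theorem lemA (a b k : ℤ) (h : |a| + |b| + 2 ≤ k) : ¬ top (k * k + k + a, b) := by
  rintro ⟨h1, -, h3⟩
  simp only at h1 h3
  have := le_abs_self b
  have := neg_abs_le a
  have := abs_nonneg a
  nlinarith

theorem lemB (a b k : ℤ) (h : |a| + |b| + 2 ≤ k) : top (k * k + k + a, k + b) ↔ b = 0 := by
  have := le_abs_self b
  have := neg_abs_le a
  have := le_abs_self a
  have := neg_abs_le b
  have := abs_nonneg a
  have := abs_nonneg b
  constructor
  · rintro ⟨h1, h2, h3⟩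
    simp only at h1 h2 h3
    by_contra hb
    rcases lt_or_gt_of_ne hb with hb | hb <;> nlinarith
  · rintro rfl
    refine ⟨?_, ?_, ?_⟩ <;> simp only <;> nlinarith

theorem loc_all : Loc C ∧ Loc Q ∧ Loc R ∧ Loc D ∧ Loc {0} := by
  refine ⟨?_, ?_, ?_, ?_, ?_⟩ <;> rintro ⟨a, b⟩ <;>
    filter_upwards [eventually_ge_atTop (|a| + |b| + 2)] with k hk <;>
    have h1 := lemA a b k hk <;> have h2 := lemB a b k hk <;>
    have := le_abs_self b <;> have := neg_abs_le a <;> have := le_abs_self a <;>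
    have := neg_abs_le b <;> have := abs_nonneg a <;> have := abs_nonneg b <;>
    have : 0 ≤ k * k := mul_self_nonneg k <;>
    simp only [C, Q, R, D, Set.mem_ofPred_eq, Prod.mk_add_mk, zero_add, h1, h2,
      Set.mem_singleton_iff, Prod.mk_eq_zero] <;> grind

theorem parity (β : ℤ × ℤ → ℤ × ℤ) (hβ : Set.BijOn β C Q) (r k : ℤ) (hk : r + 2 ≤ k)
    (h1 : ∀ x ∈ C, |(β x).1 - x.1| ≤ r)
    (h2 : ∀ a, |a| ≤ r → (β (k * k + k + a, 0)).1 = (β (k * k + k + a, k)).1) : False := by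
  classical
  have hr : 0 ≤ r := (abs_nonneg _).trans (h1 0 (by simp [C]))
  have hkk : 0 ≤ k * k := mul_self_nonneg k
  set N := k * k + k with hN
  let F := (Finset.Icc 0 (N + r) ×ˢ Finset.Icc 0 (N + r)).filter (· ∈ C)
  have hF : ∀ x, x ∈ F ↔ x ∈ C ∧ x.1 ≤ N + r := by
    rintro ⟨n, y⟩
    simp only [F, Finset.mem_filter, Finset.mem_product, Finset.mem_Icc]
    refine ⟨fun h => ⟨h.2, h.1.1.2⟩, fun h => ⟨?_, h.1⟩⟩
    obtain ⟨h3 | h3, h4⟩ := h
    · simp only at h3 h4; omega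
    · obtain ⟨h5, h6, -⟩ := h3
      simp only at h5 h6 h4
      refine ⟨⟨by nlinarith, h4⟩, by omega, by nlinarith⟩
  have hw : ∀ n y, |n - N| ≤ r → ((n, y) ∈ C ↔ y = 0 ∨ y = k) := by
    intro n y hn
    have e : (n, y) = (k * k + k + (n - N), y) := by simp [hN]
    have hn' := abs_le.mp hn
    constructor
    · rintro (h | h)
      · exact Or.inl h.1
      · obtain ⟨h5, h6, h7⟩ := h
        simp only at h5 h6 h7
        right
        by_contra hb
        rcases lt_or_gt_of_ne hb with hb | hb <;> nlinarith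
    · rintro (rfl | rfl)
      · exact Or.inl ⟨rfl, by simp only; omega⟩
      · exact Or.inr ⟨by simp only; omega, by simp only; omega, by simp only; nlinarith⟩
  let f : ℤ × ℤ → ZMod 2 := fun x => (if x.1 < N then 1 else 0) - (if (β x).1 < N then 1 else 0)
  let τ : ℤ × ℤ → ℤ × ℤ := fun x => if |x.1 - N| ≤ r then (x.1, k - x.2) else x
  have h3 : ∑ x ∈ F, f x = 0 := by
    apply Finset.sum_involution (fun x _ => τ x)
    · rintro ⟨n, y⟩ hx
      suffices f (τ (n, y)) = f (n, y) by rw [this]; exact CharTwo.add_self_eq_zero _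
      simp only [τ]
      split_ifs with h
      · have := h2 (n - N) h
        rw [add_sub_cancel] at this
        rcases (hw n y h).mp ((hF _).mp hx).1 with rfl | rfl <;> simp [f, this]
      · rfl
    · rintro ⟨n, y⟩ hx hf
      have h4 := abs_le.mp (h1 _ ((hF _).mp hx).1)
      have h : |n - N| ≤ r := by
        by_contra h
        apply hf
        rw [abs_le] at h
        simp only [f] at h4 ⊢
        split_ifs <;> first | rfl | omega
      simp only [τ, if_pos h]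
      rcases (hw n y h).mp ((hF _).mp hx).1 with rfl | rfl <;> simp <;> omega
    · rintro ⟨n, y⟩ hx
      simp only [τ]
      split_ifs with h
      · rw [hF] at hx ⊢
        refine ⟨(hw _ _ h).mpr ?_, hx.2⟩
        rcases (hw n y h).mp hx.1 with rfl | rfl <;> simp
      · exact hx
    · rintro ⟨n, y⟩ _
      by_cases h : |n - N| ≤ r <;> simp [τ, h]
  have hQ : ∀ x, x ∈ Q ↔ x ∈ C ∧ x ≠ 0 := by
    rintro ⟨n, y⟩
    simp only [Q, C, top, Set.mem_ofPred_eq, ne_eq, Prod.mk_eq_zero]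
    omega
  have h4 : (F.filter (fun x => (β x).1 < N)).card = ((F.filter (fun x => x.1 < N)).erase 0).card := by
    apply Finset.card_bij (fun x _ => β x)
    · intro x hx
      simp only [Finset.mem_filter, Finset.mem_erase, hF] at hx ⊢
      have := (hQ _).mp (hβ.mapsTo hx.1.1)
      exact ⟨this.2, ⟨this.1, by omega⟩, hx.2⟩
    · intro x hx y hy e
      simp only [Finset.mem_filter, hF] at hx hy
      exact hβ.injOn hx.1.1 hy.1.1 e
    · intro y hy
      simp only [Finset.mem_filter, Finset.mem_erase, hF] at hy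
      obtain ⟨x, hx, rfl⟩ := hβ.surjOn ((hQ y).mpr ⟨hy.2.1.1, hy.1⟩)
      have := abs_le.mp (h1 x hx)
      exact ⟨x, by simp only [Finset.mem_filter, hF]; exact ⟨⟨hx, by omega⟩, hy.2.2⟩, rfl⟩
  have h5 := Finset.card_erase_add_one (s := F.filter (fun x => x.1 < N)) (a := 0)
    (by simp only [Finset.mem_filter, hF]; exact ⟨⟨by simp [C], by simp; omega⟩, by simp; omega⟩)
  simp only [f, Finset.sum_sub_distrib, Finset.sum_boole, h4, ← h5] at h3
  simp at h3

end Pool.Agent.H.MP_59868e_an
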